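import Pool.Agent.H11.KT.Targets

/-!
# Board elk_modules: row F_IM (the imprimitive case)
-/

set_option autoImplicit false

open scoped commutatorElement

namespace Pool.Agent.H86.KT

open Pool.Agent.H11.EL Pool.Agent.H11.KT

/-- the kernel of the action on the blocks -/
def kerC (G Ω : Type) [Group G] [MulAction G Ω] : Subgroup G where
  carrier := {g | ∀ ω : Ω, g • ω = ω}
  one_mem' := fun ω => one_smul G ω
  mul_mem' := by
    intro a b ha hb ω
    rw [mul_smul, hb ω, ha ω]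
  inv_mem' := by
    intro a ha ω
    rw [inv_smul_eq_iff]
    exact (ha ω).symm

theorem kerC_normal (G Ω : Type) [Group G] [MulAction G Ω] : (kerC G Ω).Normal := by
  refine ⟨?_⟩
  intro n hn g ω
  rw [mul_smul, mul_smul, hn, smul_inv_smul]

theorem mem_kerC {G Ω : Type} [Group G] [MulAction G Ω] {g : G} :
    g ∈ kerC G Ω ↔ ∀ ω : Ω, g • ω = ω := Iff.rfl

theorem moves {G Ω : Type} [Group G] [MulAction G Ω] (R : Subgroup G)
    (hR : ∀ ω ω' : Ω, ∃ r ∈ R, r • ω = ω') (x : G) (hx : x ∉ kerC G Ω)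
    (hc : ∀ r ∈ R, ⁅x, r⁆ ∈ kerC G Ω) : ∀ ω : Ω, x • ω ≠ ω := by
  intro w hw
  apply hx
  rw [mem_kerC]
  intro ω
  obtain ⟨r, hr, rfl⟩ := hR w ω
  have h1 : x * r = ⁅x, r⁆ * (r * x) := by
    rw [commutatorElement_def]; group
  calc x • r • w = (x * r) • w := (mul_smul x r w).symm
    _ = ⁅x, r⁆ • (r • (x • w)) := by rw [h1, mul_smul, mul_smul]
    _ = r • w := by rw [hw, mem_kerC.1 (hc r hr)]

theorem pf_IM (hSO : F_SO) (hNO : F_NO) (hCM : F_CM) (hMV : F_MV) (hCO : F_CO) : F_IM := by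
  intro G V _ _ _ _ hG hI hS S hcl
  obtain ⟨Ω, iF, iA, e, hSys, hcard, htr, hR⟩ := hCO G V hI hS
  have hCn := kerC_normal G Ω
  have hCt : kerC G Ω ≠ ⊤ := by
    intro h
    obtain ⟨a, b, hab⟩ := Fintype.one_lt_card_iff.1 (lt_of_lt_of_le Nat.one_lt_two hcard)
    obtain ⟨g, hg⟩ := htr a b
    have h1 : g ∈ kerC G Ω := by rw [h]; exact Subgroup.mem_top g
    exact hab ((h1 a).symm.trans hg)
  obtain ⟨R, hRn, hCR, hRR⟩ := hSO G hG (kerC G Ω) hCn hCt
  have hRt : ∀ ω ω' : Ω, ∃ r ∈ R, r • ω = ω' := by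
    rcases hR R hRn with h | h
    · exact absurd (fun r hr => h r hr : R ≤ kerC G Ω) (not_le_of_gt hCR)
    · exact h
  have hnS : ∃ n ∈ S, n ∉ kerC G Ω := by
    by_contra hcon
    push Not at hcon
    exact hCt (hNO G hG S (kerC G Ω) hcl hCn hcon)
  obtain ⟨n, hnS, hnC⟩ := hnS
  refine ⟨n, hnS, ?_⟩
  have hV : 0 < Nat.card V := Nat.card_pos
  by_cases hc : ∀ r ∈ R, ⁅n, r⁆ ∈ kerC G Ω
  · have h1 := hMV G V Ω e hSys n (moves R hRt n hnC hc)
    calc fc V n ^ 4 = (fc V n ^ 2) ^ 2 := by ring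
      _ ≤ Nat.card V ^ 2 := Nat.pow_le_pow_left h1 2
      _ ≤ Nat.card V ^ 3 := Nat.pow_le_pow_right hV (by norm_num)
  · push Not at hc
    obtain ⟨r, hr, hrc⟩ := hc
    have hbC : ⁅r, n⁆ ∉ kerC G Ω := by
      intro h
      apply hrc
      rw [← commutatorElement_inv r n]
      exact (kerC G Ω).inv_mem h
    have hbR : ⁅r, n⁆ ∈ R := comm_mem_left hRn hr n
    have h1 := hMV G V Ω e hSys ⁅r, n⁆ (moves R hRt _ hbC
      (fun r' hr' => hRR (Subgroup.commutator_mem_commutator hbR hr')))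
    have h2 := hCM G V r n
    calc fc V n ^ 4 = (fc V n ^ 2) ^ 2 := by ring
      _ ≤ (Nat.card V * fc V ⁅r, n⁆) ^ 2 := Nat.pow_le_pow_left h2 2
      _ = Nat.card V ^ 2 * fc V ⁅r, n⁆ ^ 2 := by ring
      _ ≤ Nat.card V ^ 2 * Nat.card V := Nat.mul_le_mul_left _ h1
      _ = Nat.card V ^ 3 := by ring

end Pool.Agent.H86.KT
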